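import Pool.Agent.Helper32.LD.StT3

/-!
# LD, tiling part, module FC: functionality of the long steps
-/

set_option autoImplicit false

namespace Pool.Agent.Helper33.LD

open Pool.Agent.Helper2.LD Pool.Agent.Helper32.LD

namespace FC

private theorem ptE_int {X E F : Type} (C : MC X E F) (al : ℕ) (ε : E) (j : ℕ) (h : 0 < j ∧ j < al) :
    C.ptE al ε j = Sum.inr (ε, ⟨j - 1, by omega⟩) := by
  unfold MC.ptE; rw [dif_pos h]

private theorem pt_f {X E F : Type} (C : MC X E F) (al : ℕ) (ε : E) (j : ℕ) :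
    C.pt al (ε, false) j = C.ptE al ε j := by
  simp [MC.pt]

private theorem pt_t {X E F : Type} (C : MC X E F) (al : ℕ) (ε : E) (j : ℕ) :
    C.pt al (ε, true) j = C.ptE al ε (al - j) := by
  simp [MC.pt]

private theorem hd_t (m t : ℕ) (ε : BE m t) (h : ε.1.1 = true) :
    ((bt m t).hd ε).1 = (ε.1.2.1 + 1, 2 * ε.1.2.2) := by
  simp only [bt]
  rw [dif_neg (by simp [h])]

private theorem hd_f (m t : ℕ) (ε : BE m t) (h : ε.1.1 = false) :
    ((bt m t).hd ε).1 = (ε.1.2.1, ε.1.2.2 + 1) := by
  simp only [bt]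
  rw [dif_pos h]

private theorem nbM (hSB : StSB) (m t al : ℕ) (hal : 20 ≤ al) (x : BX m t)
    (w : SV (BX m t) (BE m t) al) (h : ((bt m t).sub al).Adj (Sum.inl x) w) :
    (∃ (ε : BE m t) (i : Fin (al - 1)), (bt m t).tl ε = x ∧ i.val = 0 ∧ w = Sum.inr (ε, i)) ∨
      (∃ (ε : BE m t) (i : Fin (al - 1)), (bt m t).hd ε = x ∧ i.val = al - 2 ∧
        w = Sum.inr (ε, i)) := by
  obtain ⟨⟨ε, b⟩, h1, h2⟩ := hSB.nbM (bt m t) al x w (by omega) h
  cases b with
  | false =>
    left
    refine ⟨ε, ⟨1 - 1, by omega⟩, ?_, rfl, ?_⟩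
    · simpa [MC.src] using h1
    · rw [h2, pt_f, ptE_int _ _ _ _ (by omega)]
  | true =>
    right
    refine ⟨ε, ⟨al - 1 - 1, by omega⟩, ?_, ?_, ?_⟩
    · simpa [MC.src] using h1
    · simp only []; omega
    · rw [h2, pt_t, ptE_int _ _ _ _ (by omega)]

private theorem nbL (hSB : StSB) (m t al : ℕ) (hal : 20 ≤ al) (ε : BE m t) (i : Fin (al - 1))
    (hi : i.val = al - 2) (w : SV (BX m t) (BE m t) al)
    (h : ((bt m t).sub al).Adj (Sum.inr (ε, i)) w) (hw : ∃ y, w = Sum.inl y) :
    w = Sum.inl ((bt m t).hd ε) := by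
  have h1 : (Sum.inr (ε, i) : SV (BX m t) (BE m t) al) = (bt m t).pt al (ε, false) (al - 1) := by
    rw [pt_f, ptE_int _ _ _ _ (by omega)]
    congr 2
    apply Fin.ext
    simp only []
    omega
  rw [h1] at h
  rcases hSB.nbI (bt m t) al (ε, false) (al - 1) w (by omega) (by omega) h with h2 | h2
  · exfalso
    rw [pt_f, ptE_int _ _ _ _ (by omega)] at h2
    obtain ⟨y, hy⟩ := hw
    rw [hy] at h2
    exact absurd h2 (by simp)
  · rw [h2, show al - 1 + 1 = al by omega, hSB.ptal _ _ _ (by omega)]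
    simp [MC.dst]

end FC

open FC in
/-- Functionality of the long steps. -/
theorem tFC (hSB : StSB) (hFA : StFA) : StFC := by
  intro I m t al e inf hm ht hal h4 hMC hLab W M L hLoc d
  have hu := hFA.uniq (e + 4) e (btc m t al inf) hLab M L hLoc
  have hmod := hFA.mod (e + 4) e (btc m t al inf) hLab M L hLoc
  have huniq : ∀ g g' g'', M.Adj g g' → M.Adj g g'' → (L g').1 = (L g'').1 →
      (L g').2.1 = (L g'').2.1 → g' = g'' := fun g g' g'' h1 h2 h3 h5 =>
    hu g g' g'' h1 h2 (Prod.ext h3 h5)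
  have hm1 : ∀ g u, L g = lbB m t al inf u → ∀ g', M.Adj g g' →
      ∃ w, ((bt m t).sub al).Adj u w ∧ (L g').1 = (lbB m t al inf w).1 ∧
        (L g').2.1 = (lbB m t al inf w).2.1 := by
    intro g u h1 g' h2
    obtain ⟨w, h3, h5⟩ := (hmod g u h1).1 g' h2
    have h6 : bsB al (L g') = bsB al (lbB m t al inf w) := h5
    simp only [bsB, Prod.mk.injEq] at h6
    exact ⟨w, h3, h6.1, h6.2⟩
  have hex : ∀ g, ∃ u, L g = lbB m t al inf u := by
    intro g
    obtain ⟨u, h1, _⟩ := hLoc g
    exact ⟨u, h1⟩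
  -- first step of a path
  have hfirst : ∀ g h (x : BX m t), L g = lbB m t al inf (Sum.inl x) → Pth al M L d g h →
      ∃ ε : BE m t, (bt m t).tl ε = x ∧ ε.1.1 = d := by
    rintro g h x h1 ⟨_, _, p, hp0, hpa, hadj, hlab⟩
    have h2 : M.Adj g (p 1) := by
      have := hadj 0 (by omega)
      rw [hp0] at this
      exact this
    obtain ⟨_, j, hj, h3⟩ := hlab 1 (by omega) (by omega)
    obtain ⟨w, h5, h6, _⟩ := hm1 g _ h1 (p 1) h2
    rw [h3] at h6
    rcases nbM hSB m t al hal x w h5 with ⟨ε, i, h7, h8, h9⟩ | ⟨ε, i, h7, h8, h9⟩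
    · refine ⟨ε, h7, ?_⟩
      rw [h9] at h6
      simp only [lbB, Option.some.injEq, Prod.mk.injEq] at h6
      exact h6.1.symm
    · exfalso
      rw [h9] at h6
      simp only [lbB, Option.some.injEq, Prod.mk.injEq] at h6
      have := congrArg Fin.val h6.2
      omega
  -- last step of a path
  have hlast : ∀ g h (x : BX m t), L h = lbB m t al inf (Sum.inl x) → Pth al M L d g h →
      ∃ ε : BE m t, (bt m t).hd ε = x ∧ ε.1.1 = d ∧
        (L g).2.1 = bl inf ε.1.2.1 ε.1.2.2 := by
    rintro g h x h1 ⟨_, _, p, hp0, hpa, hadj, hlab⟩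
    have h2 : M.Adj h (p (al - 1)) := by
      have := hadj (al - 1) (by omega)
      rw [show al - 1 + 1 = al by omega, hpa] at this
      exact this.symm
    obtain ⟨h10, j, hj, h3⟩ := hlab (al - 1) (by omega) (by omega)
    obtain ⟨w, h5, h6, h11⟩ := hm1 h _ h1 (p (al - 1)) h2
    rw [h3] at h6
    rcases nbM hSB m t al hal x w h5 with ⟨ε, i, h7, h8, h9⟩ | ⟨ε, i, h7, h8, h9⟩
    · exfalso
      rw [h9] at h6
      simp only [lbB, Option.some.injEq, Prod.mk.injEq] at h6
      have := congrArg Fin.val h6.2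
      omega
    · rw [h9] at h6 h11
      simp only [lbB, Option.some.injEq, Prod.mk.injEq] at h6
      refine ⟨ε, h7, h6.1.symm, ?_⟩
      rw [← h10, h11]
      rfl
  -- end points of edges have such models
  have hmac : ∀ g, (L g).1 = none → ∃ x : BX m t, L g = lbB m t al inf (Sum.inl x) := by
    intro g hg
    obtain ⟨u, hu⟩ := hex g
    rcases u with x | ⟨ε, i⟩
    · exact ⟨x, hu⟩
    · rw [hu] at hg
      simp [lbB] at hg
  refine ⟨?_, ?_, ?_, ?_, ?_⟩
  · rintro g h h' ⟨hg, hh, p, hp0, hpa, hadj, hlab⟩ ⟨_, hh', p', hp0', hpa', hadj', hlab'⟩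
    have key : ∀ i, i < al → p i = p' i := by
      intro i
      induction i with
      | zero => intro _; rw [hp0, hp0']
      | succ i ih =>
        intro hi
        have h1 := ih (by omega)
        obtain ⟨h2, j, hj, h3⟩ := hlab (i + 1) (by omega) hi
        obtain ⟨h2', j', hj', h3'⟩ := hlab' (i + 1) (by omega) hi
        have hjj : j = j' := Fin.ext (by omega)
        apply huniq (p i) _ _ (hadj i (by omega)) (by rw [h1]; exact hadj' i (by omega))
        · rw [h3, h3', hjj]
        · rw [h2, h2']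
    have hy : p (al - 1) = p' (al - 1) := key _ (by omega)
    obtain ⟨_, j, hj, h3⟩ := hlab (al - 1) (by omega) (by omega)
    obtain ⟨u, hu⟩ := hex (p (al - 1))
    rcases u with x | ⟨ε, i⟩
    · rw [hu] at h3
      simp [lbB] at h3
    · have hi : i = j := by
        rw [hu] at h3
        simp only [lbB, Option.some.injEq, Prod.mk.injEq] at h3
        exact h3.2
      have hi' : i.val = al - 2 := by rw [hi, hj]; omega
      have hb : ∀ h0, M.Adj (p (al - 1)) h0 → (L h0).1 = none →
          (L h0).2.1 = (lbB m t al inf (Sum.inl ((bt m t).hd ε))).2.1 := by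
        intro h0 h5 h6
        obtain ⟨w, h7, h8, h9⟩ := hm1 _ _ hu h0 h5
        rw [h6] at h8
        have hw : ∃ y, w = Sum.inl y := by
          rcases w with y | ⟨ε', i'⟩
          · exact ⟨y, rfl⟩
          · simp [lbB] at h8
        have := nbL hSB m t al hal ε i hi' w h7 hw
        rw [h9, this]
      have ha : M.Adj (p (al - 1)) h := by
        have := hadj (al - 1) (by omega)
        rw [show al - 1 + 1 = al by omega, hpa] at this
        exact this
      have ha' : M.Adj (p (al - 1)) h' := by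
        have := hadj' (al - 1) (by omega)
        rw [show al - 1 + 1 = al by omega, hpa', ← hy] at this
        exact this
      apply huniq _ _ _ ha ha'
      · rw [hh, hh']
      · rw [hb h ha hh, hb h' ha' hh']
  · rintro g g' h hP hP'
    have hP1 := hP
    have hP2 := hP'
    obtain ⟨hg, hh, p, hp0, hpa, hadj, hlab⟩ := hP
    obtain ⟨hg', _, p', hp0', hpa', hadj', hlab'⟩ := hP'
    obtain ⟨x, hx⟩ := hmac h hh
    obtain ⟨ε, h1, h2, h3⟩ := hlast g h x hx hP1
    obtain ⟨ε', h1', h2', h3'⟩ := hlast g' h x hx hP2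
    have hgg : (L g).2.1 = (L g').2.1 := by
      rw [h3, h3']
      have h5 : ((bt m t).hd ε).1 = ((bt m t).hd ε').1 := by rw [h1, h1']
      cases d with
      | false =>
        rw [hd_f m t ε h2, hd_f m t ε' h2'] at h5
        simp only [Prod.mk.injEq] at h5
        rw [h5.1, show ε.1.2.2 = ε'.1.2.2 by omega]
      | true =>
        rw [hd_t m t ε h2, hd_t m t ε' h2'] at h5
        simp only [Prod.mk.injEq] at h5
        rw [show ε.1.2.1 = ε'.1.2.1 by omega, show ε.1.2.2 = ε'.1.2.2 by omega]
    have key : ∀ j, j < al → p (al - j) = p' (al - j) := by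
      intro j
      induction j with
      | zero => intro _; rw [Nat.sub_zero, hpa, hpa']
      | succ j ih =>
        intro hj
        have h5 := ih (by omega)
        have ha := hadj (al - (j + 1)) (by omega)
        have ha' := hadj' (al - (j + 1)) (by omega)
        rw [show al - (j + 1) + 1 = al - j by omega] at ha ha'
        rw [← h5] at ha'
        obtain ⟨h6, i, hi, h7⟩ := hlab (al - (j + 1)) (by omega) (by omega)
        obtain ⟨h6', i', hi', h7'⟩ := hlab' (al - (j + 1)) (by omega) (by omega)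
        have hii : i = i' := Fin.ext (by omega)
        apply huniq _ _ _ ha.symm ha'.symm
        · rw [h7, h7', hii]
        · rw [h6, h6', hgg]
    have h5 := key (al - 1) (by omega)
    rw [show al - (al - 1) = 1 by omega] at h5
    have ha := hadj 0 (by omega)
    have ha' := hadj' 0 (by omega)
    rw [Nat.zero_add] at ha ha'
    rw [hp0] at ha
    rw [hp0', ← h5] at ha'
    apply huniq _ _ _ ha.symm ha'.symm
    · rw [hg, hg']
    · exact hgg
  · intro g h x h1 h2
    obtain ⟨ε, h3, h5⟩ := hfirst g h x h1 h2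
    have h6 : x.1 = (ε.1.2.1, ε.1.2.2) := by rw [← h3]; rfl
    constructor
    · intro hd
      have := ε.2.2.2.1 (h5.trans hd)
      rw [h6]
      exact this
    · intro hd
      have := ε.2.2.2.2 (h5.trans hd)
      rw [h6]
      exact this
  · intro g h x h1 h2
    obtain ⟨ε, h3, h5, _⟩ := hlast g h x h1 h2
    constructor
    · intro hd
      have h6 := hd_f m t ε (h5.trans hd)
      rw [h3] at h6
      rw [h6]
      simp
    · intro hd
      have h6 := hd_t m t ε (h5.trans hd)
      rw [h3] at h6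
      rw [h6]
      simp
  · rintro ⟨g⟩
    obtain ⟨u, h1, _, _, h2⟩ := hLoc g
    rcases u with x | ⟨ε, i⟩
    · refine ⟨g, ?_⟩
      have h1' : L g = lbB m t al inf (Sum.inl x) := h1
      rw [h1']; rfl
    · -- a corner
      have hi := i.2
      have hcor : ∃ (f : BF m t) (i0 : ZMod 5) (r : ℕ), 0 < r ∧ r < al ∧
          (bt m t).pt al ((bt m t).arc f i0) r = Sum.inr (ε, i) := by
        have h3 : (Sum.inr (ε, i) : SV (BX m t) (BE m t) al) =
            (bt m t).pt al (ε, false) (i.val + 1) := by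
          rw [pt_f, ptE_int _ _ _ _ (by omega)]
          rfl
        obtain ⟨f, i0, h5 | h5⟩ := hMC.cov (ε, false)
        · exact ⟨f, i0, i.val + 1, by omega, by omega, by rw [h5, h3]⟩
        · refine ⟨f, i0, al - (i.val + 1), by omega, by omega, ?_⟩
          rw [h5, hSB.ptrev _ _ _ _ (by omega), h3]
          congr 1
          omega
      obtain ⟨f, i0, r, hr0, hr, h3⟩ := hcor
      have hi5 : i0.val < 5 := ZMod.val_lt i0
      have hz : ((i0.val : ℕ) : ZMod 5) = i0 := ZMod.natCast_zmod_val i0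
      obtain ⟨q, hq1, hq2⟩ := hSB.sur al f (i0.val * al + r) (by omega)
      have hlt : i0.val * al + r < 5 * al := by
        have : i0.val * al ≤ 4 * al := Nat.mul_le_mul_right _ (by omega)
        omega
      rw [Nat.mod_eq_of_lt hlt] at hq2
      have how : (btc m t al inf).ow q = Sum.inr (ε, i) := by
        show (bt m t).fpt al q.1 q.2.val = _
        rw [hq1, hq2, hSB.fptE _ _ _ _ _ hMC (by omega) (by omega), hz, h3]
      obtain ⟨p, _, _, _, h5⟩ := h2 q how
      have h6 := h5 (al - r) (by omega)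
      have h7 : (btc m t al inf).ow (((btc m t al inf).nx^[al - r]) q) =
          Sum.inl ((bt m t).dst ((bt m t).arc f i0)) := by
        have h8 := hSB.nxt (bt m t) al (lbB m t al inf) (bsB al) (flB m t inf) q (al - r) (by omega)
        have h9 : (bt m t).fpt al q.1 (q.2.val + (al - r)) =
            Sum.inl ((bt m t).dst ((bt m t).arc f i0)) := by
          rw [hq1, hq2, show i0.val * al + r + (al - r) = i0.val * al + al by omega,
            hSB.fptE _ _ _ _ _ hMC (by omega) (le_refl _), hz, hSB.ptal _ _ _ (by omega)]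
        exact h8.trans h9
      rw [h7] at h6
      refine ⟨p (al - r), ?_⟩
      have h6' : L (p (al - r)) = lbB m t al inf (Sum.inl ((bt m t).dst ((bt m t).arc f i0))) := h6
      rw [h6']
      rfl

end Pool.Agent.Helper33.LD
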