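import Pool.Agent.Helper32.LD.StT2

/-!
# LD, tiling part, module L5: points with the same basic label are far apart
-/

set_option autoImplicit false

namespace Pool.Agent.Helper33.LD

open Pool.Agent.Helper2.LD Pool.Agent.Helper32.LD

namespace L5

private def Yf (m t al : ℕ) : SV (BX m t) (BE m t) al → ℕ
  | Sum.inl x => al * x.1.1
  | Sum.inr (ε, i) => al * ε.1.2.1 + (if ε.1.1 = true then i.val + 1 else 0)

private def Zf (m t al : ℕ) : SV (BX m t) (BE m t) al → ℕ
  | Sum.inl x => al * x.1.2 * 2 ^ (t - x.1.1)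
  | Sum.inr (ε, i) => (al * ε.1.2.2 + (if ε.1.1 = true then 0 else i.val + 1)) *
      2 ^ (t - ε.1.2.1)

private theorem hd_t (m t : ℕ) (ε : BE m t) (h : ε.1.1 = true) :
    ((bt m t).hd ε).1 = (ε.1.2.1 + 1, 2 * ε.1.2.2) := by
  simp only [bt]
  rw [dif_neg (by simp [h])]

private theorem hd_f (m t : ℕ) (ε : BE m t) (h : ε.1.1 = false) :
    ((bt m t).hd ε).1 = (ε.1.2.1, ε.1.2.2 + 1) := by
  simp only [bt]
  rw [dif_pos h]

private theorem ptE_int {X E F : Type} (C : MC X E F) (al : ℕ) (ε : E) (j : ℕ) (h : 0 < j ∧ j < al) :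
    C.ptE al ε j = Sum.inr (ε, ⟨j - 1, by omega⟩) := by
  unfold MC.ptE; rw [dif_pos h]

private theorem ptE_0 {X E F : Type} (C : MC X E F) (al : ℕ) (ε : E) :
    C.ptE al ε 0 = Sum.inl (C.tl ε) := by
  unfold MC.ptE; rw [dif_neg (by omega), if_pos rfl]

private theorem ptE_al {X E F : Type} (C : MC X E F) (al : ℕ) (hal : 1 ≤ al) (ε : E) :
    C.ptE al ε al = Sum.inl (C.hd ε) := by
  unfold MC.ptE; rw [dif_neg (by omega), if_neg (by omega)]

private theorem Y_inl (m t al : ℕ) (x : BX m t) : Yf m t al (Sum.inl x) = al * x.1.1 := rfl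
private theorem Z_inl (m t al : ℕ) (x : BX m t) :
    Zf m t al (Sum.inl x) = al * x.1.2 * 2 ^ (t - x.1.1) := rfl
private theorem Y_inr (m t al : ℕ) (ε : BE m t) (i : Fin (al - 1)) :
    Yf m t al (Sum.inr (ε, i)) = al * ε.1.2.1 + (if ε.1.1 = true then i.val + 1 else 0) := rfl
private theorem Z_inr (m t al : ℕ) (ε : BE m t) (i : Fin (al - 1)) :
    Zf m t al (Sum.inr (ε, i)) = (al * ε.1.2.2 + (if ε.1.1 = true then 0 else i.val + 1)) *
      2 ^ (t - ε.1.2.1) := rfl

private theorem tri (al j : ℕ) (hj : j ≤ al) : (0 < j ∧ j < al) ∨ j = 0 ∨ (0 < j ∧ j = al) := by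
  omega

private theorem Y_ptE (m t al : ℕ) (hal : 1 ≤ al) (ε : BE m t) (j : ℕ) (hj : j ≤ al) :
    Yf m t al ((bt m t).ptE al ε j) = al * ε.1.2.1 + (if ε.1.1 = true then j else 0) := by
  rcases tri al j hj with h | rfl | ⟨_, rfl⟩
  · rw [ptE_int _ _ _ _ h, Y_inr]
    split_ifs
    · simp only []; omega
    · rfl
  · rw [ptE_0, Y_inl]
    have : ((bt m t).tl ε).1.1 = ε.1.2.1 := rfl
    rw [this]; simp
  · rw [ptE_al _ _ hal, Y_inl]
    split_ifs with h1
    · rw [hd_t m t ε h1]; ring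
    · rw [hd_f m t ε (by simpa using h1)]; ring

private theorem Z_ptE (m t al : ℕ) (hal : 1 ≤ al) (ε : BE m t) (j : ℕ) (hj : j ≤ al) :
    Zf m t al ((bt m t).ptE al ε j) = (al * ε.1.2.2 + (if ε.1.1 = true then 0 else j)) *
      2 ^ (t - ε.1.2.1) := by
  rcases tri al j hj with h | rfl | ⟨_, rfl⟩
  · rw [ptE_int _ _ _ _ h, Z_inr]
    split_ifs
    · rfl
    · congr 2; simp only []; omega
  · rw [ptE_0, Z_inl]
    have : ((bt m t).tl ε).1 = (ε.1.2.1, ε.1.2.2) := rfl
    rw [this]; simp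
  · rw [ptE_al _ _ hal, Z_inl]
    split_ifs with h1
    · rw [hd_t m t ε h1]
      have h4 : ε.1.2.1 < t := ε.2.2.2.2 h1
      have h5 : t - ε.1.2.1 = t - (ε.1.2.1 + 1) + 1 := by omega
      rw [h5, pow_succ]
      ring
    · rw [hd_f m t ε (by simpa using h1)]; ring

private theorem adjE (m t al : ℕ) (x y : SV (BX m t) (BE m t) al)
    (h : ((bt m t).sub al).Adj x y) : ∃ (ε : BE m t) (j : ℕ), j < al ∧
      ((x = (bt m t).ptE al ε j ∧ y = (bt m t).ptE al ε (j + 1)) ∨
        (y = (bt m t).ptE al ε j ∧ x = (bt m t).ptE al ε (j + 1))) := by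
  unfold MC.sub at h
  rw [SimpleGraph.fromRel_adj] at h
  obtain ⟨_, ⟨A, i, hi, h1, h2⟩ | ⟨A, i, hi, h1, h2⟩⟩ := h
  · unfold MC.pt at h1 h2
    by_cases hA : A.2 = true
    · rw [if_pos hA] at h1 h2
      refine ⟨A.1, al - (i + 1), by omega, Or.inr ⟨h2, ?_⟩⟩
      rw [h1]
      congr 1
      omega
    · rw [if_neg hA] at h1 h2
      exact ⟨A.1, i, hi, Or.inl ⟨h1, h2⟩⟩
  · unfold MC.pt at h1 h2
    by_cases hA : A.2 = true
    · rw [if_pos hA] at h1 h2
      refine ⟨A.1, al - (i + 1), by omega, Or.inl ⟨h2, ?_⟩⟩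
      rw [h1]
      congr 1
      omega
    · rw [if_neg hA] at h1 h2
      exact ⟨A.1, i, hi, Or.inr ⟨h1, h2⟩⟩

private theorem step (m t al : ℕ) (hal : 1 ≤ al) (x y : SV (BX m t) (BE m t) al)
    (h : ((bt m t).sub al).Adj x y) :
    Yf m t al x ≤ Yf m t al y + 1 ∧ Yf m t al y ≤ Yf m t al x + 1 ∧
      ∀ r, (r = 0 ∨ al * r ≤ Yf m t al x) →
        Zf m t al x ≤ Zf m t al y + 2 ^ (t - r) ∧ Zf m t al y ≤ Zf m t al x + 2 ^ (t - r) := by
  obtain ⟨ε, j, hj, h1⟩ := adjE m t al x y h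
  have hY0 := Y_ptE m t al hal ε j (by omega)
  have hY1 := Y_ptE m t al hal ε (j + 1) (by omega)
  have hZ0 := Z_ptE m t al hal ε j (by omega)
  have hZ1 := Z_ptE m t al hal ε (j + 1) (by omega)
  by_cases hd : ε.1.1 = true
  · simp only [hd, if_true] at hY0 hY1 hZ0 hZ1
    rcases h1 with ⟨rfl, rfl⟩ | ⟨rfl, rfl⟩
    · refine ⟨by omega, by omega, fun r _ => ?_⟩
      rw [hZ0, hZ1]
      generalize 2 ^ (t - r) = P
      omega
    · refine ⟨by omega, by omega, fun r _ => ?_⟩
      rw [hZ0, hZ1]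
      generalize 2 ^ (t - r) = P
      omega
  · simp only [hd] at hY0 hY1 hZ0 hZ1
    simp only [Bool.false_eq_true, if_false] at hY0 hY1 hZ0 hZ1
    have key : ∀ r, (r = 0 ∨ al * r ≤ al * ε.1.2.1) → 2 ^ (t - ε.1.2.1) ≤ 2 ^ (t - r) := by
      intro r hr
      apply Nat.pow_le_pow_right (by norm_num)
      rcases hr with hr | hr
      · omega
      · have := Nat.le_of_mul_le_mul_left hr hal
        omega
    have hs : (al * ε.1.2.2 + (j + 1)) * 2 ^ (t - ε.1.2.1) =
        (al * ε.1.2.2 + j) * 2 ^ (t - ε.1.2.1) + 2 ^ (t - ε.1.2.1) := by ring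
    rw [hs] at hZ1
    rcases h1 with ⟨rfl, rfl⟩ | ⟨rfl, rfl⟩
    · refine ⟨by omega, by omega, fun r hr => ?_⟩
      rw [hY0] at hr
      have := key r (by simpa using hr)
      rw [hZ0, hZ1]
      revert this
      generalize 2 ^ (t - r) = P
      generalize 2 ^ (t - ε.1.2.1) = P'
      generalize (al * ε.1.2.2 + j) * P' = P''
      intro this
      omega
    · refine ⟨by omega, by omega, fun r hr => ?_⟩
      rw [hY1] at hr
      have := key r (by simpa using hr)
      rw [hZ0, hZ1]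
      revert this
      generalize 2 ^ (t - r) = P
      generalize 2 ^ (t - ε.1.2.1) = P'
      generalize (al * ε.1.2.2 + j) * P' = P''
      intro this
      omega

private theorem walkY (m t al : ℕ) (hal : 1 ≤ al) (x y : SV (BX m t) (BE m t) al)
    (w : ((bt m t).sub al).Walk x y) :
    Yf m t al x ≤ Yf m t al y + w.length ∧ Yf m t al y ≤ Yf m t al x + w.length := by
  induction w with
  | nil => simp
  | cons h p ih =>
    have := step m t al hal _ _ h
    simp only [SimpleGraph.Walk.length_cons]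
    omega

private theorem walkZ (m t al : ℕ) (hal : 1 ≤ al) (r : ℕ) (x y : SV (BX m t) (BE m t) al)
    (w : ((bt m t).sub al).Walk x y) :
    (r = 0 ∨ al * r + w.length ≤ Yf m t al x) →
    Zf m t al x ≤ Zf m t al y + w.length * 2 ^ (t - r) ∧
      Zf m t al y ≤ Zf m t al x + w.length * 2 ^ (t - r) := by
  induction w with
  | nil => intro _; simp
  | cons h p ih =>
    intro hr
    have h1 := step m t al hal _ _ h
    simp only [SimpleGraph.Walk.length_cons] at hr ⊢
    have h2 := h1.2.2 r (by rcases hr with hr | hr; exact Or.inl hr; exact Or.inr (by omega))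
    have h3 := ih (by rcases hr with hr | hr; exact Or.inl hr; exact Or.inr (by omega))
    rw [Nat.add_mul, one_mul]
    omega

private theorem fin_ (m t al : ℕ) (hal : 20 ≤ al) (x y : SV (BX m t) (BE m t) al)
    (hd : ((bt m t).sub al).edist x y ≤ ((5 * al + 18 : ℕ) : ℕ∞)) (n k n' k' c c' : ℕ)
    (hn : n % 32 = n' % 32) (hk : k % 2 ^ 20 = k' % 2 ^ 20) (hnt : n ≤ t)
    (hYx : Yf m t al x = al * n + c) (hYy : Yf m t al y = al * n' + c)
    (hZx : Zf m t al x = (al * k + c') * 2 ^ (t - n))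
    (hZy : Zf m t al y = (al * k' + c') * 2 ^ (t - n')) : n = n' ∧ k = k' := by
  have hne : ((bt m t).sub al).edist x y ≠ ⊤ := by
    intro h
    rw [h] at hd
    exact absurd (top_le_iff.1 hd) (ENat.natCast_ne_top _)
  obtain ⟨w, hw⟩ := SimpleGraph.exists_walk_of_edist_ne_top hne
  have hL : w.length ≤ 5 * al + 18 := by
    rw [← hw] at hd
    exact_mod_cast hd
  obtain ⟨h1, h2⟩ := walkY m t al (by omega) x y w
  rw [hYx, hYy] at h1 h2
  have hnn : n = n' := by
    have h3 : n < n' + 6 := by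
      by_contra hc
      push Not at hc
      have : al * (n' + 6) ≤ al * n := Nat.mul_le_mul_left _ hc
      rw [Nat.mul_add] at this
      omega
    have h4 : n' < n + 6 := by
      by_contra hc
      push Not at hc
      have : al * (n + 6) ≤ al * n' := Nat.mul_le_mul_left _ hc
      rw [Nat.mul_add] at this
      omega
    omega
  subst hnn
  refine ⟨rfl, ?_⟩
  obtain ⟨h3, h4⟩ := walkZ m t al (by omega) (n - 6) x y w (by
    by_cases h6 : n ≤ 6
    · left; omega
    · right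
      rw [hYx]
      have : al * n = al * (n - 6) + al * 6 := by rw [← Nat.mul_add]; congr 1; omega
      omega)
  have hp : 2 ^ (t - (n - 6)) ≤ 2 ^ 6 * 2 ^ (t - n) := by
    rw [← pow_add]
    apply Nat.pow_le_pow_right (by norm_num)
    omega
  have hq : 0 < 2 ^ (t - n) := by positivity
  have h5 : w.length * 2 ^ (t - (n - 6)) ≤ (5 * al + 18) * 64 * 2 ^ (t - n) := by
    calc w.length * 2 ^ (t - (n - 6)) ≤ (5 * al + 18) * (2 ^ 6 * 2 ^ (t - n)) :=
          Nat.mul_le_mul hL hp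
      _ = (5 * al + 18) * 64 * 2 ^ (t - n) := by ring
  rw [hZx, hZy] at h3 h4
  have h6 : al * k + c' ≤ al * k' + c' + (5 * al + 18) * 64 := by
    apply Nat.le_of_mul_le_mul_right _ hq
    calc (al * k + c') * 2 ^ (t - n) ≤ (al * k' + c') * 2 ^ (t - n) +
          (5 * al + 18) * 64 * 2 ^ (t - n) := by omega
      _ = (al * k' + c' + (5 * al + 18) * 64) * 2 ^ (t - n) := by ring
  have h7 : al * k' + c' ≤ al * k + c' + (5 * al + 18) * 64 := by
    apply Nat.le_of_mul_le_mul_right _ hq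
    calc (al * k' + c') * 2 ^ (t - n) ≤ (al * k + c') * 2 ^ (t - n) +
          (5 * al + 18) * 64 * 2 ^ (t - n) := by omega
      _ = (al * k + c' + (5 * al + 18) * 64) * 2 ^ (t - n) := by ring
  have h8 : k < k' + 384 := by
    by_contra hc
    push Not at hc
    have : al * (k' + 384) ≤ al * k := Nat.mul_le_mul_left _ hc
    rw [Nat.mul_add] at this
    omega
  have h9 : k' < k + 384 := by
    by_contra hc
    push Not at hc
    have : al * (k + 384) ≤ al * k' := Nat.mul_le_mul_left _ hc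
    rw [Nat.mul_add] at this
    omega
  norm_num at hk
  omega

end L5

open L5 in
/-- Points with the same basic label are far from each other. -/
theorem tL5 : StL5 := by
  intro I m t al inf hm ht hal x y hd hb
  have hd' : ((bt m t).sub al).edist x y ≤ ((5 * al + 18 : ℕ) : ℕ∞) := hd
  rcases x with x | ⟨ε, i⟩ <;> rcases y with y | ⟨ε', i'⟩
  · simp only [bsB, lbB, om, bl, Prod.mk.injEq, Fin.mk.injEq] at hb
    obtain ⟨_, hn, hk, _⟩ := hb
    obtain ⟨h1, h2⟩ := fin_ m t al hal _ _ hd' x.1.1 x.1.2 y.1.1 y.1.2 0 0 hn hk x.2.1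
      rfl rfl rfl rfl
    congr 1
    exact Subtype.ext (Prod.ext h1 h2)
  · simp only [bsB, lbB, Prod.mk.injEq] at hb
    exact absurd hb.1 (by simp)
  · simp only [bsB, lbB, Prod.mk.injEq] at hb
    exact absurd hb.1 (by simp)
  · simp only [bsB, lbB, om, bl, Prod.mk.injEq, Fin.mk.injEq, Option.some.injEq] at hb
    obtain ⟨⟨hdd, hi⟩, hn, hk, _⟩ := hb
    subst hi
    obtain ⟨h1, h2⟩ := fin_ m t al hal _ _ hd' ε.1.2.1 ε.1.2.2 ε'.1.2.1 ε'.1.2.2
      (if ε.1.1 = true then i.val + 1 else 0) (if ε.1.1 = true then 0 else i.val + 1) hn hk ε.2.1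
      rfl (by rw [hdd]; rfl) rfl (by rw [hdd]; rfl)
    have : ε = ε' := Subtype.ext (Prod.ext hdd (Prod.ext h1 h2))
    rw [this]

end Pool.Agent.Helper33.LD
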