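import Pool.Agent.Helper2.LD.St4

/-!
# LD, module Gdist: distances in the graph `G'`
-/

set_option autoImplicit false

namespace Pool.Agent.Helper33.LD

open Pool.Agent.Helper2.LD

section

variable {V Q Λ B FB : Type}

/-- A function which is a distance. -/
private theorem key {X : Type} (G : SimpleGraph X) (x : X) (g : X → ℕ) (h0 : g x = 0)
    (h1 : ∀ a b, G.Adj a b → g b ≤ g a + 1)
    (h2 : ∀ h, h ≠ x → ∃ h', G.Adj h h' ∧ g h' + 1 = g h) :
    ∀ h, G.edist x h = (g h : ℕ∞) := by
  intro h
  apply le_antisymm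
  · generalize hn : g h = n
    induction n generalizing h with
    | zero =>
      by_cases hx : h = x
      · subst hx; simp
      · obtain ⟨h', _, h4⟩ := h2 h hx
        omega
    | succ n ih =>
      have hx : h ≠ x := by rintro rfl; omega
      obtain ⟨h', h3, h4⟩ := h2 h hx
      have h5 := ih h' (by omega)
      have h6 : G.edist h' h ≤ 1 := by
        rw [SimpleGraph.edist_comm]
        exact le_of_eq (SimpleGraph.edist_eq_one_iff_adj.2 h3)
      calc G.edist x h ≤ G.edist x h' + G.edist h' h := SimpleGraph.edist_triangle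
        _ ≤ (n : ℕ∞) + 1 := add_le_add h5 h6
        _ = ((n + 1 : ℕ) : ℕ∞) := by push_cast; rfl
  · rw [SimpleGraph.edist]
    apply le_iInf
    intro w
    have : ∀ (a b : X) (w : G.Walk a b), g b ≤ g a + w.length := by
      intro a b w
      induction w with
      | nil => simp
      | cons hadj p ih =>
        have := h1 _ _ hadj
        simp only [SimpleGraph.Walk.length_cons]
        omega
    have h3 := this x h w
    rw [h0] at h3
    exact_mod_cast (by simpa using h3)

private theorem ht_core {K : Type} (N : ℕ) (x : V) : (GH.core x : GH V Q K).ht N = 0 := rfl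
private theorem ht_gho {K : Type} (N : ℕ) (q : Q) (j : ℕ) : (GH.gho q j : GH V Q K).ht N = j := rfl
private theorem ht_tru {K : Type} (N : ℕ) (x : V) (j : ℕ) : (GH.tru x j : GH V Q K).ht N = j := rfl
private theorem ht_fan {K : Type} (N : ℕ) (x : V) (l : Finset K) :
    (GH.fan x l : GH V Q K).ht N = 2 * N := rfl

/-- The parent of an existing hub exists. -/
private theorem okdp (N e : ℕ) (hP : Par N e) (c : Core V Q Λ B FB)
    (h : GH V Q (Kd N Λ B FB)) (hh : okG N e c h) : okG N e c (h.dp N c) := by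
  obtain ⟨hP1, hP2⟩ := hP
  cases h with
  | core x => trivial
  | gho q j =>
    simp only [GH.dp]
    split_ifs with h1
    · trivial
    · simp only [okG] at hh ⊢; omega
  | tru x j =>
    simp only [GH.dp]
    split_ifs with h1
    · trivial
    · simp only [okG] at hh ⊢; omega
  | fan x l =>
    simp only [GH.dp, okG]
    omega

private theorem own_dp {K : Type} (N : ℕ) (c : Core V Q Λ B FB) (h : GH V Q K) :
    (h.dp N c).own c = h.own c := by
  cases h with
  | core x => rfl
  | gho q j => simp only [GH.dp]; split_ifs <;> rfl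
  | tru x j => simp only [GH.dp]; split_ifs <;> rfl
  | fan x l => rfl

private theorem ht_dp (N e : ℕ) (hP : Par N e) (c : Core V Q Λ B FB)
    (h : GH V Q (Kd N Λ B FB)) (h0 : h.ht N ≠ 0) :
    (h.dp N c).ht N + 1 = h.ht N := by
  obtain ⟨hP1, hP2⟩ := hP
  cases h with
  | core x => exact absurd rfl h0
  | gho q j =>
    simp only [GH.dp, ht_gho] at h0 ⊢
    split_ifs with h1
    · simp only [ht_core]; omega
    · simp only [ht_gho]; omega
  | tru x j =>
    simp only [GH.dp, ht_tru] at h0 ⊢
    split_ifs with h1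
    · simp only [ht_core]; omega
    · simp only [ht_tru]; omega
  | fan x l => simp only [GH.dp, ht_fan, ht_tru]; omega

/-- Distance functions on the level of natural hubs. -/
private theorem key2 (N e : ℕ) (_ : Par N e) (c : Core V Q Λ B FB)
    (x : GV N e c) (g : GH V Q (Kd N Λ B FB) → ℕ) (h0 : g x.1 = 0)
    (h1 : ∀ y z, c.G.Adj y z → g (.core y) ≤ g (.core z) + 1)
    (h2 : ∀ h, okG N e c h → h.ht N ≠ 0 → g (h.dp N c) ≤ g h + 1 ∧ g h ≤ g (h.dp N c) + 1)
    (h3 : ∀ h, okG N e c h → h ≠ x.1 → ∃ h', okG N e c h' ∧ g h' + 1 = g h ∧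
      ((∃ y z, h = .core y ∧ h' = .core z ∧ c.G.Adj y z) ∨ (h.ht N ≠ 0 ∧ h' = h.dp N c) ∨
        (h'.ht N ≠ 0 ∧ h = h'.dp N c))) :
    ∀ h, (GG N e c).edist x h = (g h.1 : ℕ∞) := by
  apply key (GG N e c) x (fun h => g h.1) h0
  · rintro ⟨a, ha⟩ ⟨b, hb⟩ ⟨_, hab⟩
    simp only at hab ⊢
    rcases hab with ⟨y, z, rfl, rfl, h4⟩ | ⟨h4, h5⟩ | ⟨h4, h5⟩
    · exact h1 _ _ h4.symm
    · rw [h5]; exact (h2 a ha h4).1
    · rw [h5]; exact (h2 b hb h4).2
  · rintro ⟨h, hh⟩ hx
    have hx' : h ≠ x.1 := fun h4 => hx (Subtype.ext h4)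
    obtain ⟨h', h4, h5, h6⟩ := h3 h hh hx'
    refine ⟨⟨h', h4⟩, ⟨?_, h6⟩, h5⟩
    intro h7
    have h8 : h = h' := congrArg Subtype.val h7
    rw [h8] at h5
    omega

private theorem dist_adj (N e : ℕ) (c : Core V Q Λ B FB) (hc : CoreAx N e c) (u y z : V)
    (h : c.G.Adj y z) : c.G.dist u y ≤ c.G.dist u z + 1 := by
  have h1 := hc.conn.dist_triangle (u := u) (v := z) (w := y)
  have h2 : c.G.dist z y = 1 := SimpleGraph.dist_eq_one_iff_adj.2 h.symm
  omega

private theorem dist_step (N e : ℕ) (c : Core V Q Λ B FB) (hc : CoreAx N e c) (u z : V)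
    (h : z ≠ u) : ∃ w, c.G.Adj z w ∧ c.G.dist u w + 1 = c.G.dist u z := by
  obtain ⟨p, hp⟩ := hc.conn.exists_walk_length_eq_dist z u
  cases p with
  | nil => exact absurd rfl h
  | @cons _ w _ hadj p =>
    refine ⟨w, hadj, ?_⟩
    have h1 := dist_adj N e c hc u z w hadj
    have h2 : c.G.dist w u ≤ p.length := SimpleGraph.dist_le p
    rw [SimpleGraph.dist_comm (u := w)] at h2
    rw [SimpleGraph.dist_comm (u := z)] at hp
    simp only [SimpleGraph.Walk.length_cons] at hp
    omega

private theorem lev_dp (N e : ℕ) (hP : Par N e) (c : Core V Q Λ B FB) (u : V)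
    (h : GH V Q (Kd N Λ B FB)) (h0 : h.ht N ≠ 0) :
    lev N c u (h.dp N c) + 1 = lev N c u h := by
  have := ht_dp N e hP c h h0
  unfold lev
  rw [own_dp]
  omega

private theorem lev_core {K : Type} (N : ℕ) (c : Core V Q Λ B FB) (u z : V) :
    lev N c u (GH.core z : GH V Q K) = c.G.dist u z := rfl

/-- The general step towards the core vertex `u`. -/
private theorem lev_step (N e : ℕ) (hP : Par N e) (c : Core V Q Λ B FB) (hc : CoreAx N e c)
    (u : V) (h : GH V Q (Kd N Λ B FB)) (hh : okG N e c h) (hx : h ≠ .core u) :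
    (∃ y z, h = .core y ∧ c.G.Adj y z ∧ lev N c u (GH.core z : GH V Q (Kd N Λ B FB)) + 1 = lev N c u h) ∨
      (h.ht N ≠ 0 ∧ okG N e c (h.dp N c) ∧ lev N c u (h.dp N c) + 1 = lev N c u h) := by
  by_cases h0 : h.ht N = 0
  · left
    cases h with
    | core z =>
      obtain ⟨w, h1, h2⟩ := dist_step N e c hc u z (fun h => hx (by rw [h]))
      exact ⟨z, w, rfl, h1, h2⟩
    | gho q j => simp only [ht_gho] at h0; simp only [okG] at hh; omega
    | tru x j => simp only [ht_tru] at h0; simp only [okG] at hh; omega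
    | fan x l => simp only [ht_fan] at h0; have := hP.1; have := hP.2; omega
  · right
    exact ⟨h0, okdp N e hP c h hh, lev_dp N e hP c u h h0⟩

private theorem dcore (N e : ℕ) (c : Core V Q Λ B FB) (hP : Par N e) (hc : CoreAx N e c)
    (x h : GV N e c) (u : V) (hx : x.1 = .core u) :
    (GG N e c).edist x h = ((lev N c u h.1 : ℕ) : ℕ∞) := by
  apply key2 N e hP c x (fun h => lev N c u h)
  · show lev N c u x.1 = 0
    rw [hx, lev_core]; simp
  · intro y z h1
    exact dist_adj N e c hc u y z h1
  · intro h hh h0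
    have := lev_dp N e hP c u h h0
    omega
  · intro h hh hne
    rw [hx] at hne
    rcases lev_step N e hP c hc u h hh hne with ⟨y, z, rfl, h1, h2⟩ | ⟨h1, h2, h3⟩
    · exact ⟨.core z, trivial, h2, Or.inl ⟨y, z, rfl, rfl, h1⟩⟩
    · exact ⟨_, h2, h3, Or.inr (Or.inl ⟨h1, rfl⟩)⟩

open Classical in
/-- The distance from the ghost `gho q j`. -/
private noncomputable def gfun (N : ℕ) {K : Type} (c : Core V Q Λ B FB) (q : Q) (j : ℕ) :
    GH V Q K → ℕ
  | .gho q' j' => if q' = q then (j - j') + (j' - j) else j + lev N c (c.ow q) (.gho q' j' : GH V Q K)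
  | .core z => j + lev N c (c.ow q) (.core z : GH V Q K)
  | .tru z i => j + lev N c (c.ow q) (.tru z i : GH V Q K)
  | .fan z l => j + lev N c (c.ow q) (.fan z l : GH V Q K)

private theorem gfun_same (N : ℕ) {K : Type} (c : Core V Q Λ B FB) (q : Q) (j j' : ℕ) :
    gfun N c q j (.gho q j' : GH V Q K) = (j - j') + (j' - j) := by
  simp [gfun]

private theorem gfun_ne (N : ℕ) {K : Type} (c : Core V Q Λ B FB) (q : Q) (j : ℕ)
    (h : GH V Q K) (hh : ∀ j', h ≠ .gho q j') :
    gfun N c q j h = j + lev N c (c.ow q) h := by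
  cases h with
  | core x => rfl
  | gho q' j' =>
    simp only [gfun]
    rw [if_neg]
    rintro rfl
    exact hh j' rfl
  | tru x j => rfl
  | fan x l => rfl

private theorem dp_ne {K : Type} (N : ℕ) (c : Core V Q Λ B FB) (q : Q)
    (h : GH V Q K) (hh : ∀ j', h ≠ .gho q j') : ∀ j', h.dp N c ≠ .gho q j' := by
  intro j' h1
  cases h with
  | core x => simp [GH.dp] at h1
  | gho q' i =>
    simp only [GH.dp] at h1
    split_ifs at h1 with h2
    injection h1 with h3 h4
    subst h3
    exact hh i rfl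
  | tru x i =>
    simp only [GH.dp] at h1
    split_ifs at h1 with h2
  | fan x l => simp [GH.dp] at h1

private theorem dgho (N e : ℕ) (c : Core V Q Λ B FB) (hP : Par N e) (hc : CoreAx N e c)
    (x h : GV N e c) (q : Q) (j : ℕ) (hx : x.1 = .gho q j) :
    (GG N e c).edist x h = ((gfun N c q j h.1 : ℕ) : ℕ∞) := by
  have hxok : okG N e c (.gho q j) := hx ▸ x.2
  simp only [okG] at hxok
  have hlev0 : lev N c (c.ow q) (GH.core (c.ow q) : GH V Q (Kd N Λ B FB)) = 0 := by
    rw [lev_core]; simp
  apply key2 N e hP c x (fun h => gfun N c q j h)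
  · show gfun N c q j x.1 = 0
    rw [hx, gfun_same]; omega
  · intro y z h1
    have := dist_adj N e c hc (c.ow q) y z h1
    show j + lev N c (c.ow q) _ ≤ j + lev N c (c.ow q) _ + 1
    rw [lev_core, lev_core]
    omega
  · intro h hh h0
    by_cases hq : ∃ j', h = .gho q j'
    · obtain ⟨j', rfl⟩ := hq
      simp only [okG] at hh
      rw [gfun_same]
      by_cases h1 : j' ≤ 1
      · have h2 : (GH.gho q j' : GH V Q (Kd N Λ B FB)).dp N c = .core (c.ow q) := by
          simp [GH.dp, h1]
        rw [h2, gfun_ne _ _ _ _ _ (by simp), hlev0]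
        omega
      · have h2 : (GH.gho q j' : GH V Q (Kd N Λ B FB)).dp N c = .gho q (j' - 1) := by
          simp [GH.dp, h1]
        rw [h2, gfun_same]
        omega
    · push Not at hq
      rw [gfun_ne _ _ _ _ _ hq, gfun_ne _ _ _ _ _ (dp_ne N c q h hq)]
      have := lev_dp N e hP c (c.ow q) h h0
      omega
  · intro h hh hne
    by_cases hq : ∃ j', h = .gho q j'
    · obtain ⟨j', rfl⟩ := hq
      rw [hx] at hne
      simp only [okG] at hh
      have hne' : j' ≠ j := fun h => hne (by rw [h])
      rcases lt_or_gt_of_ne hne' with h1 | h1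
      · refine ⟨.gho q (j' + 1), ?_, ?_, Or.inr (Or.inr ⟨?_, ?_⟩)⟩
        · simp only [okG]; omega
        · simp only [gfun_same]; omega
        · simp only [ht_gho]; omega
        · simp only [GH.dp]; rw [if_neg (by omega)]; simp
      · refine ⟨.gho q (j' - 1), ?_, ?_, Or.inr (Or.inl ⟨?_, ?_⟩)⟩
        · simp only [okG]; omega
        · simp only [gfun_same]; omega
        · simp only [ht_gho]; omega
        · simp only [GH.dp]; rw [if_neg (by omega)]
    · push Not at hq
      by_cases hcore : h = .core (c.ow q)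
      · subst hcore
        refine ⟨.gho q 1, ?_, ?_, Or.inr (Or.inr ⟨?_, ?_⟩)⟩
        · simp only [okG]; omega
        · simp only [gfun_same]
          rw [gfun_ne _ _ _ _ _ hq, hlev0]
          omega
        · simp only [ht_gho]; omega
        · simp [GH.dp]
      · rcases lev_step N e hP c hc (c.ow q) h hh hcore with ⟨y, z, rfl, h1, h2⟩ | ⟨h1, h2, h3⟩
        · refine ⟨.core z, trivial, ?_, Or.inl ⟨y, z, rfl, rfl, h1⟩⟩
          rw [gfun_ne _ _ _ _ _ hq, gfun_ne _ _ _ _ _ (by simp)]
          omega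
        · refine ⟨_, h2, ?_, Or.inr (Or.inl ⟨h1, rfl⟩)⟩
          rw [gfun_ne _ _ _ _ _ hq, gfun_ne _ _ _ _ _ (dp_ne N c q h hq)]
          omega

open Classical in
/-- The distance from a position of the trunk. -/
private noncomputable def tfun (N : ℕ) {K : Type} (c : Core V Q Λ B FB) (u : V) (j : ℕ) :
    GH V Q K → ℕ
  | .tru z i => if z = u then (j - i) + (i - j) else j + lev N c u (.tru z i : GH V Q K)
  | .fan z l => if z = u then 2 * N - j else j + lev N c u (.fan z l : GH V Q K)
  | .core z => j + lev N c u (.core z : GH V Q K)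
  | .gho q i => j + lev N c u (.gho q i : GH V Q K)

private theorem tfun_tru (N : ℕ) {K : Type} (c : Core V Q Λ B FB) (u : V) (j j' : ℕ) :
    tfun N c u j (.tru u j' : GH V Q K) = (j - j') + (j' - j) := by
  simp [tfun]

private theorem tfun_fan (N : ℕ) {K : Type} (c : Core V Q Λ B FB) (u : V) (j : ℕ) (l : Finset K) :
    tfun N c u j (.fan u l : GH V Q K) = 2 * N - j := by
  simp [tfun]

private theorem tfun_ne (N : ℕ) {K : Type} (c : Core V Q Λ B FB) (u : V) (j : ℕ)
    (h : GH V Q K) (hh : ∀ j', h ≠ .tru u j') (hf : ∀ l, h ≠ .fan u l) :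
    tfun N c u j h = j + lev N c u h := by
  cases h with
  | core x => rfl
  | gho q' j' => rfl
  | tru x j =>
    simp only [tfun]
    rw [if_neg]
    rintro rfl
    exact hh j rfl
  | fan x l =>
    simp only [tfun]
    rw [if_neg]
    rintro rfl
    exact hf l rfl

private theorem dp_ne2 {K : Type} (N : ℕ) (c : Core V Q Λ B FB) (u : V)
    (h : GH V Q K) (hh : ∀ j', h ≠ .tru u j') (hf : ∀ l, h ≠ .fan u l) :
    (∀ j', h.dp N c ≠ .tru u j') ∧ (∀ l, h.dp N c ≠ .fan u l) := by
  constructor
  · intro j' h1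
    cases h with
    | core x => simp [GH.dp] at h1
    | gho q' i =>
      simp only [GH.dp] at h1
      split_ifs at h1 with h2
    | tru x i =>
      simp only [GH.dp] at h1
      split_ifs at h1 with h2
      injection h1 with h3 h4
      subst h3
      exact hh i rfl
    | fan x l =>
      simp only [GH.dp] at h1
      injection h1 with h3 h4
      subst h3
      exact hf l rfl
  · intro l h1
    cases h with
    | core x => simp [GH.dp] at h1
    | gho q' i =>
      simp only [GH.dp] at h1
      split_ifs at h1 with h2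
    | tru x i =>
      simp only [GH.dp] at h1
      split_ifs at h1 with h2
    | fan x l => simp [GH.dp] at h1

private theorem dtru (N e : ℕ) (c : Core V Q Λ B FB) (hP : Par N e) (hc : CoreAx N e c)
    (x h : GV N e c) (u : V) (j : ℕ) (hx : x.1 = .tru u j) :
    (GG N e c).edist x h = ((tfun N c u j h.1 : ℕ) : ℕ∞) := by
  have hxok : okG N e c (.tru u j) := hx ▸ x.2
  simp only [okG] at hxok
  have hlev0 : lev N c u (GH.core u : GH V Q (Kd N Λ B FB)) = 0 := by
    rw [lev_core]; simp
  apply key2 N e hP c x (fun h => tfun N c u j h)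
  · show tfun N c u j x.1 = 0
    rw [hx, tfun_tru]; omega
  · intro y z h1
    have := dist_adj N e c hc u y z h1
    show j + lev N c u _ ≤ j + lev N c u _ + 1
    rw [lev_core, lev_core]
    omega
  · intro h hh h0
    by_cases hq : ∃ j', h = .tru u j'
    · obtain ⟨j', rfl⟩ := hq
      simp only [okG] at hh
      rw [tfun_tru]
      by_cases h1 : j' ≤ 1
      · have h2 : (GH.tru u j' : GH V Q (Kd N Λ B FB)).dp N c = .core u := by
          simp [GH.dp, h1]
        rw [h2, tfun_ne _ _ _ _ _ (by simp) (by simp), hlev0]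
        omega
      · have h2 : (GH.tru u j' : GH V Q (Kd N Λ B FB)).dp N c = .tru u (j' - 1) := by
          simp [GH.dp, h1]
        rw [h2, tfun_tru]
        omega
    · by_cases hf : ∃ l, h = .fan u l
      · obtain ⟨l, rfl⟩ := hf
        have h2 : (GH.fan u l : GH V Q (Kd N Λ B FB)).dp N c = .tru u (2 * N - 1) := rfl
        rw [h2, tfun_tru, tfun_fan]
        omega
      · push Not at hq hf
        rw [tfun_ne _ _ _ _ _ hq hf, tfun_ne _ _ _ _ _ (dp_ne2 N c u h hq hf).1
          (dp_ne2 N c u h hq hf).2]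
        have := lev_dp N e hP c u h h0
        omega
  · intro h hh hne
    by_cases hq : ∃ j', h = .tru u j'
    · obtain ⟨j', rfl⟩ := hq
      rw [hx] at hne
      simp only [okG] at hh
      have hne' : j' ≠ j := fun h => hne (by rw [h])
      rcases lt_or_gt_of_ne hne' with h1 | h1
      · refine ⟨.tru u (j' + 1), ?_, ?_, Or.inr (Or.inr ⟨?_, ?_⟩)⟩
        · simp only [okG]; omega
        · simp only [tfun_tru]; omega
        · simp only [ht_tru]; omega
        · simp only [GH.dp]; rw [if_neg (by omega)]; simp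
      · refine ⟨.tru u (j' - 1), ?_, ?_, Or.inr (Or.inl ⟨?_, ?_⟩)⟩
        · simp only [okG]; omega
        · simp only [tfun_tru]; omega
        · simp only [ht_tru]; omega
        · simp only [GH.dp]; rw [if_neg (by omega)]
    · by_cases hf : ∃ l, h = .fan u l
      · obtain ⟨l, rfl⟩ := hf
        refine ⟨.tru u (2 * N - 1), ?_, ?_, Or.inr (Or.inl ⟨?_, rfl⟩)⟩
        · simp only [okG]; omega
        · simp only [tfun_tru, tfun_fan]; omega
        · simp only [ht_fan]; omega
      · push Not at hq hf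
        by_cases hcore : h = .core u
        · subst hcore
          refine ⟨.tru u 1, ?_, ?_, Or.inr (Or.inr ⟨?_, ?_⟩)⟩
          · simp only [okG]; omega
          · simp only [tfun_tru]
            rw [tfun_ne _ _ _ _ _ hq hf, hlev0]
            omega
          · simp only [ht_tru]; omega
          · simp [GH.dp]
        · rcases lev_step N e hP c hc u h hh hcore with ⟨y, z, rfl, h1, h2⟩ | ⟨h1, h2, h3⟩
          · refine ⟨.core z, trivial, ?_, Or.inl ⟨y, z, rfl, rfl, h1⟩⟩
            rw [tfun_ne _ _ _ _ _ hq hf, tfun_ne _ _ _ _ _ (by simp) (by simp)]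
            omega
          · refine ⟨_, h2, ?_, Or.inr (Or.inl ⟨h1, rfl⟩)⟩
            rw [tfun_ne _ _ _ _ _ hq hf, tfun_ne _ _ _ _ _ (dp_ne2 N c u h hq hf).1
              (dp_ne2 N c u h hq hf).2]
            omega

open Classical in
/-- The distance from a fan. -/
private noncomputable def ffun (N : ℕ) {K : Type} (c : Core V Q Λ B FB) (u : V) (l : Finset K) :
    GH V Q K → ℕ
  | .tru z i => if z = u then 2 * N - i else 2 * N + lev N c u (.tru z i : GH V Q K)
  | .fan z l' => if z = u then (if l' = l then 0 else 2) else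
      2 * N + lev N c u (.fan z l' : GH V Q K)
  | .core z => 2 * N + lev N c u (.core z : GH V Q K)
  | .gho q i => 2 * N + lev N c u (.gho q i : GH V Q K)

private theorem ffun_tru (N : ℕ) {K : Type} (c : Core V Q Λ B FB) (u : V) (l : Finset K) (j' : ℕ) :
    ffun N c u l (.tru u j' : GH V Q K) = 2 * N - j' := by
  simp [ffun]

private theorem ffun_self (N : ℕ) {K : Type} (c : Core V Q Λ B FB) (u : V) (l : Finset K) :
    ffun N c u l (.fan u l : GH V Q K) = 0 := by
  simp [ffun]

private theorem ffun_fan (N : ℕ) {K : Type} (c : Core V Q Λ B FB) (u : V) (l l' : Finset K)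
    (h : l' ≠ l) : ffun N c u l (.fan u l' : GH V Q K) = 2 := by
  simp [ffun, h]

private theorem ffun_ne (N : ℕ) {K : Type} (c : Core V Q Λ B FB) (u : V) (l : Finset K)
    (h : GH V Q K) (hh : ∀ j', h ≠ .tru u j') (hf : ∀ l, h ≠ .fan u l) :
    ffun N c u l h = 2 * N + lev N c u h := by
  cases h with
  | core x => rfl
  | gho q' j' => rfl
  | tru x j =>
    simp only [ffun]
    rw [if_neg]
    rintro rfl
    exact hh j rfl
  | fan x l =>
    simp only [ffun]
    rw [if_neg]
    rintro rfl
    exact hf l rfl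

private theorem dfan (N e : ℕ) (c : Core V Q Λ B FB) (hP : Par N e) (hc : CoreAx N e c)
    (x h : GV N e c) (u : V) (l : Finset (Kd N Λ B FB)) (hx : x.1 = .fan u l) :
    (GG N e c).edist x h = ((ffun N c u l h.1 : ℕ) : ℕ∞) := by
  have hxok : okG N e c (.fan u l) := hx ▸ x.2
  have hP' := hP
  obtain ⟨hP1, hP2⟩ := hP'
  have hlev0 : lev N c u (GH.core u : GH V Q (Kd N Λ B FB)) = 0 := by
    rw [lev_core]; simp
  apply key2 N e hP c x (fun h => ffun N c u l h)
  · show ffun N c u l x.1 = 0
    rw [hx, ffun_self]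
  · intro y z h1
    have := dist_adj N e c hc u y z h1
    show 2 * N + lev N c u _ ≤ 2 * N + lev N c u _ + 1
    rw [lev_core, lev_core]
    omega
  · intro h hh h0
    by_cases hq : ∃ j', h = .tru u j'
    · obtain ⟨j', rfl⟩ := hq
      simp only [okG] at hh
      rw [ffun_tru]
      by_cases h1 : j' ≤ 1
      · have h2 : (GH.tru u j' : GH V Q (Kd N Λ B FB)).dp N c = .core u := by
          simp [GH.dp, h1]
        rw [h2, ffun_ne _ _ _ _ _ (by simp) (by simp), hlev0]
        omega
      · have h2 : (GH.tru u j' : GH V Q (Kd N Λ B FB)).dp N c = .tru u (j' - 1) := by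
          simp [GH.dp, h1]
        rw [h2, ffun_tru]
        omega
    · by_cases hf : ∃ l, h = .fan u l
      · obtain ⟨l', rfl⟩ := hf
        have h2 : (GH.fan u l' : GH V Q (Kd N Λ B FB)).dp N c = .tru u (2 * N - 1) := rfl
        rw [h2, ffun_tru]
        by_cases h3 : l' = l
        · subst h3
          rw [ffun_self]; omega
        · rw [ffun_fan _ _ _ _ _ h3]; omega
      · push Not at hq hf
        rw [ffun_ne _ _ _ _ _ hq hf, ffun_ne _ _ _ _ _ (dp_ne2 N c u h hq hf).1
          (dp_ne2 N c u h hq hf).2]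
        have := lev_dp N e hP c u h h0
        omega
  · intro h hh hne
    by_cases hq : ∃ j', h = .tru u j'
    · obtain ⟨j', rfl⟩ := hq
      simp only [okG] at hh
      by_cases h1 : j' = 2 * N - 1
      · subst h1
        refine ⟨.fan u l, hxok, ?_, Or.inr (Or.inr ⟨?_, rfl⟩)⟩
        · simp only [ffun_self, ffun_tru]; omega
        · simp only [ht_fan]; omega
      · refine ⟨.tru u (j' + 1), ?_, ?_, Or.inr (Or.inr ⟨?_, ?_⟩)⟩
        · simp only [okG]; omega
        · simp only [ffun_tru]; omega
        · simp only [ht_tru]; omega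
        · simp only [GH.dp]; rw [if_neg (by omega)]; simp
    · by_cases hf : ∃ l, h = .fan u l
      · obtain ⟨l', rfl⟩ := hf
        have hl : l' ≠ l := by
          rintro rfl
          exact hne hx.symm
        refine ⟨.tru u (2 * N - 1), ?_, ?_, Or.inr (Or.inl ⟨?_, rfl⟩)⟩
        · simp only [okG]; omega
        · simp only [ffun_tru, ffun_fan _ _ _ _ _ hl]; omega
        · simp only [ht_fan]; omega
      · push Not at hq hf
        by_cases hcore : h = .core u
        · subst hcore
          refine ⟨.tru u 1, ?_, ?_, Or.inr (Or.inr ⟨?_, ?_⟩)⟩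
          · simp only [okG]; omega
          · simp only [ffun_tru]
            rw [ffun_ne _ _ _ _ _ hq hf, hlev0]
            omega
          · simp only [ht_tru]; omega
          · simp [GH.dp]
        · rcases lev_step N e hP c hc u h hh hcore with ⟨y, z, rfl, h1, h2⟩ | ⟨h1, h2, h3⟩
          · refine ⟨.core z, trivial, ?_, Or.inl ⟨y, z, rfl, rfl, h1⟩⟩
            rw [ffun_ne _ _ _ _ _ hq hf, ffun_ne _ _ _ _ _ (by simp) (by simp)]
            omega
          · refine ⟨_, h2, ?_, Or.inr (Or.inl ⟨h1, rfl⟩)⟩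
            rw [ffun_ne _ _ _ _ _ hq hf, ffun_ne _ _ _ _ _ (dp_ne2 N c u h hq hf).1
              (dp_ne2 N c u h hq hf).2]
            omega

end

/-- Distances in `G'`. -/
theorem pGdist : StGdist where
  core := fun N e c hP hc x h u hx => dcore N e c hP hc x h u hx
  gho := by
    intro V Q Λ B FB N e c hP hc x h q j hx
    rw [dgho N e c hP hc x h q j hx]
    refine ⟨?_, ?_⟩
    · intro j' h1
      rw [h1, gfun_same]
    · intro h1
      rw [gfun_ne _ _ _ _ _ h1]
  tru := by
    intro V Q Λ B FB N e c hP hc x h u j hx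
    rw [dtru N e c hP hc x h u j hx]
    refine ⟨?_, ?_, ?_⟩
    · intro j' h1
      rw [h1, tfun_tru]
    · intro l h1
      rw [h1, tfun_fan]
    · intro h1 h2
      rw [tfun_ne _ _ _ _ _ h1 h2]
  fan := by
    intro V Q Λ B FB N e c hP hc x h u l hx
    rw [dfan N e c hP hc x h u l hx]
    refine ⟨?_, ?_, ?_⟩
    · intro j h1
      rw [h1, ffun_tru]
    · intro l' h0 h1
      rw [h1, ffun_fan _ _ _ _ _ h0]
      rfl
    · intro h1 h2
      rw [ffun_ne _ _ _ _ _ h1 h2]

end Pool.Agent.Helper33.LD
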