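import Pool.Agent.Helper2.LD.St4

/-!
# LD, module Gpos: points of short geodesics in `G'` starting at a core vertex
-/

set_option autoImplicit false

namespace Pool.Agent.Helper33.LD

open Pool.Agent.Helper2.LD

namespace Gpos

section

variable {V Q Λ B FB : Type}

private theorem ed (N e : ℕ) (c : Core V Q Λ B FB) (hc : CoreAx N e c) (x y : V) (n : ℕ) :
    c.G.edist x y = (n : ℕ∞) ↔ c.G.dist x y = n := by
  have h := (hc.conn.preconnected x y).coe_dist_eq_edist
  rw [← h]
  exact Nat.cast_inj

private theorem okdp (N e : ℕ) (hP : Par N e) (c : Core V Q Λ B FB)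
    (h : GH V Q (Kd N Λ B FB)) (hh : okG N e c h) : okG N e c (h.dp N c) := by
  obtain ⟨hP1, hP2⟩ := hP
  cases h with
  | core x => trivial
  | gho q j =>
    simp only [GH.dp]
    split_ifs with h1
    · trivial
    · simp only [okG] at hh ⊢; omega
  | tru x j =>
    simp only [GH.dp]
    split_ifs with h1
    · trivial
    · simp only [okG] at hh ⊢; omega
  | fan x l =>
    simp only [GH.dp, okG]
    omega

private theorem own_dp {K : Type} (N : ℕ) (c : Core V Q Λ B FB) (h : GH V Q K) :
    (h.dp N c).own c = h.own c := by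
  cases h with
  | core x => rfl
  | gho q j => simp only [GH.dp]; split_ifs <;> rfl
  | tru x j => simp only [GH.dp]; split_ifs <;> rfl
  | fan x l => rfl

private theorem ht_dp (N e : ℕ) (hP : Par N e) (c : Core V Q Λ B FB)
    (h : GH V Q (Kd N Λ B FB)) (h0 : h.ht N ≠ 0) :
    (h.dp N c).ht N + 1 = h.ht N := by
  obtain ⟨hP1, hP2⟩ := hP
  cases h with
  | core x => exact absurd rfl h0
  | gho q j =>
    simp only [GH.dp, GH.ht] at h0 ⊢
    split_ifs with h1
    · simp only []; omega
    · simp only []; omega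
  | tru x j =>
    simp only [GH.dp, GH.ht] at h0 ⊢
    split_ifs with h1
    · simp only []; omega
    · simp only []; omega
  | fan x l => simp only [GH.dp, GH.ht]; omega

private theorem lev_dp (N e : ℕ) (hP : Par N e) (c : Core V Q Λ B FB) (u : V)
    (h : GH V Q (Kd N Λ B FB)) (h0 : h.ht N ≠ 0) :
    lev N c u (h.dp N c) + 1 = lev N c u h := by
  have := ht_dp N e hP c h h0
  unfold lev
  rw [own_dp]
  omega

private theorem lev_core {K : Type} (N : ℕ) (c : Core V Q Λ B FB) (u z : V) :
    lev N c u (GH.core z : GH V Q K) = c.G.dist u z := rfl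

private theorem pb_core {K : Type} (N e : ℕ) (c : Core V Q Λ B FB) (s : Ch V Q) (u z : V) :
    pb N e c s false u (.core z : GH V Q K) = .core (s.pr u z) := by
  simp [pb]

private theorem pb_ne {K : Type} (N e : ℕ) (c : Core V Q Λ B FB) (s : Ch V Q) (u : V)
    (h : GH V Q K) (hh : ∀ z, h ≠ .core z) : pb N e c s false u h = h.dp N c := by
  cases h with
  | core x => exact absurd rfl (hh x)
  | gho q j => rfl
  | tru x j => rfl
  | fan x l => rfl

private theorem ht_ne (N e : ℕ) (hP : Par N e) (c : Core V Q Λ B FB)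
    (h : GH V Q (Kd N Λ B FB)) (hh : okG N e c h) (h0 : ∀ z, h ≠ .core z) : h.ht N ≠ 0 := by
  obtain ⟨hP1, hP2⟩ := hP
  cases h with
  | core x => exact absurd rfl (h0 x)
  | gho q j => simp only [okG, GH.ht] at hh ⊢; omega
  | tru x j => simp only [okG, GH.ht] at hh ⊢; omega
  | fan x l => simp only [GH.ht]; omega

/-- The parent exists, is adjacent, and has smaller level. -/
private theorem step (N e : ℕ) (hP : Par N e) (c : Core V Q Λ B FB) (s : Ch V Q)
    (hs : ChAx N c s) (u : V) (h : GV N e c) (h0 : h.1 ≠ .core u) :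
    ∃ h' : GV N e c, h'.1 = pb N e c s false u h.1 ∧ (GG N e c).Adj h h' ∧
      lev N c u h'.1 + 1 = lev N c u h.1 := by
  obtain ⟨h, hh⟩ := h
  simp only at h0
  by_cases hz : ∃ z, h = .core z
  · obtain ⟨z, rfl⟩ := hz
    have hne : u ≠ z := fun h => h0 (by rw [h])
    obtain ⟨h1, h2⟩ := hs.pr u z hne
    refine ⟨⟨.core (s.pr u z), trivial⟩, ?_, ⟨?_, Or.inl ⟨z, s.pr u z, rfl, rfl, h1⟩⟩, ?_⟩
    · rw [pb_core]
    · intro h3
      have h4 : (GH.core z : GH V Q (Kd N Λ B FB)) = .core (s.pr u z) := congrArg Subtype.val h3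
      injection h4 with h5
      exact h1.ne h5
    · simp only [lev_core]; exact h2
  · push Not at hz
    have hht := ht_ne N e hP c h hh hz
    refine ⟨⟨h.dp N c, okdp N e hP c h hh⟩, ?_, ⟨?_, Or.inr (Or.inl ⟨hht, rfl⟩)⟩, ?_⟩
    · rw [pb_ne _ _ _ _ _ _ hz]
    · intro h3
      have h4 : h = h.dp N c := congrArg Subtype.val h3
      have h5 := ht_dp N e hP c h hht
      rw [← h4] at h5
      omega
    · exact lev_dp N e hP c u h hht

/-- Uniqueness of the neighbour of smaller level. -/
private theorem uniq (N e : ℕ) (hP : Par N e) (c : Core V Q Λ B FB) (hc : CoreAx N e c)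
    (s : Ch V Q) (hs : ChAx N c s) (hPb : StPb) (u : V) (h h' : GV N e c)
    (hadj : (GG N e c).Adj h h') (hl : lev N c u h'.1 + 1 = lev N c u h.1)
    (h2e : lev N c u h.1 ≤ 2 * e)
    (hanti : ∀ r, c.ow r = u → h.1 ≠ .core (c.ow ((c.nx^[2 * e]) r))) :
    h'.1 = pb N e c s false u h.1 := by
  obtain ⟨_, ⟨z, w, h1, h2, h3⟩ | ⟨h1, h2⟩ | ⟨h1, h2⟩⟩ := hadj
  · rw [h1, h2, lev_core, lev_core] at hl
    rw [h1, lev_core] at h2e
    rcases lt_or_eq_of_le h2e with h4 | h4
    · have h5 := (hPb (K := Kd N Λ B FB) N e c s hP hc hs false u).1 z w h4 h3 hl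
      rw [h1, h2, h5]
    · rw [h1, h2, pb_core]
      congr 1
      by_contra hne
      have hzu : u ≠ z := by
        rintro rfl
        have := hP.2
        simp at h4
        omega
      obtain ⟨h5, h6⟩ := hs.pr u z hzu
      have he := hP.2
      obtain ⟨r, h7, h8, _⟩ := hc.k2 u z w (s.pr u z) ((ed N e c hc _ _ _).2 h4) h3
        ((ed N e c hc _ _ _).2 (by omega)) h5 ((ed N e c hc _ _ _).2 (by omega)) hne
      exact hanti r h7 (by rw [h1, h8])
  · have h3 : ∀ z, h.1 ≠ .core z := by
      intro z h4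
      rw [h4] at h1
      exact h1 rfl
    rw [pb_ne _ _ _ _ _ _ h3]
    exact h2
  · have := lev_dp N e hP c u h'.1 h1
    rw [← h2] at this
    omega

private theorem down (N e : ℕ) (hP : Par N e) (c : Core V Q Λ B FB) (hc : CoreAx N e c)
    (s : Ch V Q) (hs : ChAx N c s) (hPb : StPb) (u : V) (x : GV N e c) (p : ℕ)
    (hD : ∀ h : GV N e c, (GG N e c).edist x h = ((lev N c u h.1 : ℕ) : ℕ∞)) :
    ∀ (q : ℕ) (h z : GV N e c), lev N c u h.1 = p + q → p + q ≤ 2 * e →
      (∀ r, c.ow r = u → h.1 ≠ .core (c.ow ((c.nx^[2 * e]) r))) →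
      (GG N e c).edist x z = (p : ℕ∞) → (GG N e c).edist z h = (q : ℕ∞) →
      z.1 = (pb N e c s false u)^[q] h.1 := by
  intro q
  induction q with
  | zero =>
    intro h z _ _ _ _ h4
    have : z = h := by
      rw [Nat.cast_zero] at h4
      exact SimpleGraph.edist_eq_zero_iff.1 h4
    rw [this]; rfl
  | succ q ih =>
    intro h z h1 h2 h3 h4 h5
    -- a walk from z to h
    have hne : (GG N e c).edist h z ≠ ⊤ := by
      rw [SimpleGraph.edist_comm, h5]; exact ENat.natCast_ne_top _
    obtain ⟨w, hw⟩ := SimpleGraph.exists_walk_of_edist_ne_top hne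
    rw [SimpleGraph.edist_comm, h5] at hw
    have hw' : w.length = q + 1 := by exact_mod_cast hw
    cases w with
    | nil => simp at hw'
    | @cons _ h1' _ hadj w =>
      simp only [SimpleGraph.Walk.length_cons] at hw'
      have h6 : (GG N e c).edist z h1' ≤ (q : ℕ∞) := by
        rw [SimpleGraph.edist_comm]
        have := SimpleGraph.Walk.edist_le w
        have h7 : w.length = q := by omega
        rw [h7] at this
        exact this
      -- level of h1'
      have h7 : lev N c u h1'.1 ≤ p + q := by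
        have h8 : (GG N e c).edist x h1' ≤ (p : ℕ∞) + (q : ℕ∞) :=
          SimpleGraph.edist_triangle.trans (add_le_add h4.le h6)
        rw [hD] at h8
        exact_mod_cast h8
      have h8 : lev N c u h.1 ≤ lev N c u h1'.1 + 1 := by
        have h9 : (GG N e c).edist x h ≤ (GG N e c).edist x h1' + (GG N e c).edist h1' h :=
          SimpleGraph.edist_triangle
        have h10 : (GG N e c).edist h1' h = 1 := SimpleGraph.edist_eq_one_iff_adj.2 hadj.symm
        rw [h10, hD, hD] at h9
        exact_mod_cast h9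
      have h9 : (q : ℕ∞) ≤ (GG N e c).edist z h1' := by
        have h10 : (GG N e c).edist x h1' ≤ (GG N e c).edist x z + (GG N e c).edist z h1' :=
          SimpleGraph.edist_triangle
        rw [h4, hD] at h10
        have h11 : ((lev N c u h1'.1 : ℕ) : ℕ∞) = (p : ℕ∞) + (q : ℕ∞) := by
          have : lev N c u h1'.1 = p + q := by omega
          rw [this]; push_cast; rfl
        rw [h11] at h10
        exact (ENat.add_le_add_iff_left (ENat.natCast_ne_top p)).1 h10
      have h10 := uniq N e hP c hc s hs hPb u h h1' hadj (by omega) (by omega) h3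
      have h11 := ih h1' z (by omega) (by omega) ?_ h4 (le_antisymm h6 h9)
      · rw [h11, h10]
        rfl
      · intro r hr h12
        have h13 := (hPb (K := Kd N Λ B FB) N e c s hP hc hs false u).2.2 r hr
        rw [h12, lev_core] at h7
        omega

private theorem up (N e : ℕ) (hP : Par N e) (c : Core V Q Λ B FB)
    (s : Ch V Q) (hs : ChAx N c s) (u : V) (p : ℕ) :
    ∀ (q : ℕ) (h : GV N e c), lev N c u h.1 = p + q →
      ∃ z : GV N e c, z.1 = (pb N e c s false u)^[q] h.1 ∧ lev N c u z.1 = p ∧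
        (GG N e c).edist z h ≤ (q : ℕ∞) := by
  intro q
  induction q with
  | zero =>
    intro h h1
    exact ⟨h, rfl, h1, by simp⟩
  | succ q ih =>
    intro h h1
    have h0 : h.1 ≠ .core u := by
      intro h2
      rw [h2, lev_core] at h1
      simp at h1
    obtain ⟨h', h2, h3, h4⟩ := step N e hP c s hs u h h0
    obtain ⟨z, h5, h6, h7⟩ := ih h' (by omega)
    refine ⟨z, ?_, h6, ?_⟩
    · rw [h5, h2]; rfl
    · calc (GG N e c).edist z h ≤ (GG N e c).edist z h' + (GG N e c).edist h' h :=
          SimpleGraph.edist_triangle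
        _ ≤ (q : ℕ∞) + 1 := add_le_add h7
          (le_of_eq (SimpleGraph.edist_eq_one_iff_adj.2 h3.symm))
        _ = ((q + 1 : ℕ) : ℕ∞) := by push_cast; rfl

/-- Going along a face. -/
private theorem face (N e : ℕ) (c : Core V Q Λ B FB) (hc : CoreAx N e c) (r : Q) (i j : ℕ)
    (h : j ≤ 2 * e) : c.G.dist (c.ow ((c.nx^[i]) r)) (c.ow ((c.nx^[i + j]) r)) = j := by
  have h1 := hc.iso ((c.nx^[i]) r) j h
  rw [← Function.iterate_add_apply, add_comm j i] at h1
  exact (ed N e c hc _ _ _).1 h1

private theorem face_adj (N e : ℕ) (c : Core V Q Λ B FB) (hc : CoreAx N e c) (r : Q) (i : ℕ) :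
    c.G.Adj (c.ow ((c.nx^[i]) r)) (c.ow ((c.nx^[i + 1]) r)) := by
  have h1 := hc.adj ((c.nx^[i]) r)
  have h2 : (c.nx^[i + 1]) r = c.nx ((c.nx^[i]) r) := Function.iterate_succ_apply' _ _ _
  rw [h2]
  exact h1

private theorem face_back (N e : ℕ) (c : Core V Q Λ B FB) (hc : CoreAx N e c) (r : Q) (i : ℕ)
    (h : i ≤ 2 * e) : c.G.dist (c.ow r) (c.ow ((c.nx^[2 * e + i]) r)) = 2 * e - i := by
  have h1 := face N e c hc r (2 * e + i) (2 * e - i) (by omega)
  have h2 : 2 * e + i + (2 * e - i) = 4 * e := by omega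
  rw [h2, hc.per r, SimpleGraph.dist_comm] at h1
  exact h1

private theorem geo (N e : ℕ) (hP : Par N e) (c : Core V Q Λ B FB) (hc : CoreAx N e c)
    (r : Q) : ∀ (i : ℕ), i + 1 < 2 * e → ∀ y, c.G.dist (c.ow r) y = 2 * e - (i + 1) →
      c.G.dist y (c.ow ((c.nx^[2 * e]) r)) = i + 1 →
      y = c.ow ((c.nx^[2 * e - (i + 1)]) r) ∨ y = c.ow ((c.nx^[2 * e + (i + 1)]) r) := by
  have he := hP.2
  intro i
  induction i with
  | zero =>
    intro _ y h1 h2
    by_cases h3 : y = c.ow ((c.nx^[2 * e - 1]) r)
    · left; exact h3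
    · right
      have ha : c.G.dist (c.ow r) (c.ow ((c.nx^[2 * e]) r)) = 2 * e := by
        have := face N e c hc r 0 (2 * e) (le_refl _)
        simpa using this
      have hb : c.G.dist (c.ow r) (c.ow ((c.nx^[2 * e - 1]) r)) = 2 * e - 1 := by
        have := face N e c hc r 0 (2 * e - 1) (by omega)
        simpa using this
      have hadj1 : c.G.Adj (c.ow ((c.nx^[2 * e]) r)) y :=
        (SimpleGraph.dist_eq_one_iff_adj.1 (by simpa using h2)).symm
      have hadj2 : c.G.Adj (c.ow ((c.nx^[2 * e]) r)) (c.ow ((c.nx^[2 * e - 1]) r)) := by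
        have := face_adj N e c hc r (2 * e - 1)
        rw [show 2 * e - 1 + 1 = 2 * e by omega] at this
        exact this.symm
      obtain ⟨r', h4, h5, h6⟩ := hc.k2 (c.ow r) (c.ow ((c.nx^[2 * e]) r)) y
        (c.ow ((c.nx^[2 * e - 1]) r)) ((ed N e c hc _ _ _).2 ha) hadj1
        ((ed N e c hc _ _ _).2 (by simpa using h1)) hadj2 ((ed N e c hc _ _ _).2 hb) h3
      have h7 : r' = r := hc.k4 r' r h4 h5
      subst h7
      rcases h6 with h6 | h6
      · exact absurd h6.1 h3
      · exact h6.2
  | succ i ih =>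
    intro hi y h1 h2
    -- a neighbour of y nearer to the antipode
    obtain ⟨p, hp⟩ := hc.conn.exists_walk_length_eq_dist y (c.ow ((c.nx^[2 * e]) r))
    rw [h2] at hp
    cases p with
    | nil => simp at hp
    | @cons _ y' _ hadj p =>
      simp only [SimpleGraph.Walk.length_cons] at hp
      have h3 : c.G.dist y' (c.ow ((c.nx^[2 * e]) r)) ≤ i + 1 := by
        have := SimpleGraph.dist_le p
        omega
      have ha : c.G.dist (c.ow r) (c.ow ((c.nx^[2 * e]) r)) = 2 * e := by
        have := face N e c hc r 0 (2 * e) (le_refl _)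
        simpa using this
      have hd1 : c.G.dist y y' = 1 := SimpleGraph.dist_eq_one_iff_adj.2 hadj
      have h4 := hc.conn.dist_triangle (u := c.ow r) (v := y) (w := y')
      have h5 := hc.conn.dist_triangle (u := c.ow r) (v := y') (w := c.ow ((c.nx^[2 * e]) r))
      have h6 : c.G.dist (c.ow r) y' = 2 * e - (i + 1) := by omega
      have h7 : c.G.dist y' (c.ow ((c.nx^[2 * e]) r)) = i + 1 := by omega
      rcases ih (by omega) y' h6 h7 with h8 | h8
      · left
        refine hc.k1 (c.ow r) y' y _ (2 * e - (i + 1 + 1)) (by omega)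
          ((ed N e c hc _ _ _).2 (by omega)) hadj.symm ((ed N e c hc _ _ _).2 h1) ?_ ?_
        · have := face_adj N e c hc r (2 * e - (i + 1 + 1))
          rw [show 2 * e - (i + 1 + 1) + 1 = 2 * e - (i + 1) by omega] at this
          rw [h8]
          exact this.symm
        · have := face N e c hc r 0 (2 * e - (i + 1 + 1)) (by omega)
          rw [Nat.zero_add] at this
          exact (ed N e c hc _ _ _).2 this
      · right
        refine hc.k1 (c.ow r) y' y _ (2 * e - (i + 1 + 1)) (by omega)
          ((ed N e c hc _ _ _).2 (by omega)) hadj.symm ((ed N e c hc _ _ _).2 h1) ?_ ?_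
        · have := face_adj N e c hc r (2 * e + (i + 1))
          rw [h8]
          exact this
        · exact (ed N e c hc _ _ _).2 (face_back N e c hc r (i + 1 + 1) (by omega))

end

end Gpos

open Gpos in
/-- Points of short geodesics in `G'` starting at a core vertex. -/
theorem pGpos (hG : StGdist) (hPb : StPb) : StGpos where
  pos := by
    intro V Q Λ B FB N e c s hP hc hs x h z u p q hx h1 h2 h3
    have hD : ∀ h : GV N e c, (GG N e c).edist x h = ((lev N c u h.1 : ℕ) : ℕ∞) :=
      fun h => hG.core N e c hP hc x h u hx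
    constructor
    · rintro ⟨h4, h5⟩
      exact down N e hP c hc s hs hPb u x p hD q h z h1 h2 h3 h4 h5
    · intro h4
      obtain ⟨z', h5, h6, h7⟩ := up N e hP c s hs u p q h h1
      have h8 : z = z' := Subtype.ext (h4.trans h5.symm)
      subst h8
      have h9 : (GG N e c).edist x z = (p : ℕ∞) := by rw [hD, h6]
      refine ⟨h9, le_antisymm h7 ?_⟩
      have h10 : (GG N e c).edist x h ≤ (GG N e c).edist x z + (GG N e c).edist z h :=
        SimpleGraph.edist_triangle
      rw [h9, hD, h1] at h10
      have h11 : (p : ℕ∞) + (q : ℕ∞) ≤ (p : ℕ∞) + (GG N e c).edist z h := by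
        have : ((p + q : ℕ) : ℕ∞) = (p : ℕ∞) + (q : ℕ∞) := by push_cast; rfl
        rw [← this]; exact h10
      exact (ENat.add_le_add_iff_left (ENat.natCast_ne_top p)).1 h11
  anti := by
    intro V Q Λ B FB N e c hP hc x h z u r hx hr hh
    have he := hP.2
    have hD : ∀ h : GV N e c, (GG N e c).edist x h = ((lev N c u h.1 : ℕ) : ℕ∞) :=
      fun h => hG.core N e c hP hc x h u hx
    have hD2 : ∀ z : GV N e c, (GG N e c).edist z h =
        ((lev N c (c.ow ((c.nx^[2 * e]) r)) z.1 : ℕ) : ℕ∞) := by
      intro z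
      rw [SimpleGraph.edist_comm]
      exact hG.core N e c hP hc h z _ hh
    have ha : c.G.dist (c.ow r) (c.ow ((c.nx^[2 * e]) r)) = 2 * e := by
      have := face N e c hc r 0 (2 * e) (le_refl _)
      simpa using this
    constructor
    · rintro ⟨h1, h2⟩
      rw [hD] at h1
      rw [hD2] at h2
      have h1' : lev N c u z.1 = e := by exact_mod_cast h1
      have h2' : lev N c (c.ow ((c.nx^[2 * e]) r)) z.1 = e := by exact_mod_cast h2
      have htri := hc.conn.dist_triangle (u := c.ow r) (v := z.1.own c)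
        (w := c.ow ((c.nx^[2 * e]) r))
      rw [ha, SimpleGraph.dist_comm (u := z.1.own c)] at htri
      subst hr
      by_cases hz : ∃ y, z.1 = .core y
      · obtain ⟨y, hy⟩ := hz
        rw [hy, lev_core] at h1' h2'
        rw [SimpleGraph.dist_comm] at h2'
        have := geo N e hP c hc r (e - 1) (by omega) y (by omega) (by omega)
        rw [show 2 * e - (e - 1 + 1) = e by omega, show 2 * e + (e - 1 + 1) = 3 * e by omega] at this
        rw [hy]
        rcases this with h3 | h3
        · left; rw [h3]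
        · right; rw [h3]
      · push Not at hz
        have h3 := ht_ne N e hP c z.1 z.2 hz
        unfold lev at h1' h2'
        omega
    · intro h1
      have h3 : c.G.dist (c.ow r) (c.ow ((c.nx^[e]) r)) = e := by
        have := face N e c hc r 0 e (by omega)
        rw [Nat.zero_add] at this
        exact this
      have h4 : c.G.dist (c.ow r) (c.ow ((c.nx^[3 * e]) r)) = e := by
        have := face_back N e c hc r e (by omega)
        rw [show 2 * e + e = 3 * e by omega, show 2 * e - e = e by omega] at this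
        exact this
      have h5 : c.G.dist (c.ow ((c.nx^[2 * e]) r)) (c.ow ((c.nx^[e]) r)) = e := by
        have := face N e c hc r e e (by omega)
        rw [show e + e = 2 * e by omega, SimpleGraph.dist_comm] at this
        exact this
      have h6 : c.G.dist (c.ow ((c.nx^[2 * e]) r)) (c.ow ((c.nx^[3 * e]) r)) = e := by
        have := face N e c hc r (2 * e) e (by omega)
        rw [show 2 * e + e = 3 * e by omega] at this
        exact this
      subst hr
      rw [hD, hD2]
      rcases h1 with h1 | h1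
      · rw [h1, lev_core, lev_core, h3, h5]
        exact ⟨rfl, rfl⟩
      · rw [h1, lev_core, lev_core, h4, h6]
        exact ⟨rfl, rfl⟩

end Pool.Agent.Helper33.LD
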